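import Pool.Agent.Helper65.FX.St

set_option autoImplicit false

namespace Pool.Agent.Helper58.FX

open Set Topology Metric Filter
open scoped ContDiff
open Pool.Agent.Helper65.FX Pool.Agent.Helper87.FX

theorem rch_cont {V : Type} [NormedAddCommGroup V] [NormedSpace ℝ V] {Y : Set V}
    {𝓕 : Set (ℂ → V → V)} {L : Set V} (hF : ∀ e ∈ 𝓕, Flw Y e) {u : V → V}
    (h : Rch 𝓕 L u) : ContinuousOn u L := by
  induction h with
  | base u hu => exact continuousOn_id.congr hu
  | step u u' f e h he hf hu' ih =>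
    have hc : Continuous (fun z : ℂ × V => e z.1 z.2) := (hF e he).sm.continuous
    exact (hc.comp_continuousOn (hf.prodMk ih)).congr hu'

theorem unif_near {V : Type} [NormedAddCommGroup V] [NormedSpace ℝ V] [FiniteDimensional ℝ V]
    (φ : ℂ × V → V) (hφ : Continuous φ) (S : Set (ℂ × V)) (hS : IsCompact S) (ε : ℝ) (hε : 0 < ε) :
    ∃ δ > 0, ∀ s ∈ S, ∀ z : ℂ × V, dist z s < δ → dist (φ z) (φ s) < ε := by
  have : ProperSpace V := FiniteDimensional.proper ℝ V
  have hK : IsCompact (cthickening 1 S) := hS.cthickening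
  have hu : UniformContinuousOn φ (cthickening 1 S) :=
    hK.uniformContinuousOn_of_continuous hφ.continuousOn
  rw [Metric.uniformContinuousOn_iff] at hu
  obtain ⟨δ, hδ, h⟩ := hu ε hε
  refine ⟨min δ 1, lt_min hδ one_pos, fun s hs z hz => ?_⟩
  refine h z ?_ s ?_ (lt_of_lt_of_le hz (min_le_left _ _))
  · exact mem_cthickening_of_dist_le z s 1 S hs (le_of_lt (lt_of_lt_of_le hz (min_le_right _ _)))
  · exact self_subset_cthickening S hs

theorem key (hS : StSMA) {V : Type} [NormedAddCommGroup V] [NormedSpace ℝ V]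
    [FiniteDimensional ℝ V] {Y : Set V} {𝓕 : Set (ℂ → V → V)} {L : Set V}
    (hF : ∀ e ∈ 𝓕, Flw Y e) (hL : IsCompact L) {u : V → V} (h : Rch 𝓕 L u) :
    ∀ ε > 0, ∃ G : V → V → V, Par Y G ∧ ∀ x ∈ L, dist (G x x) (u x) < ε := by
  induction h with
  | base u hu =>
    intro ε hε
    refine ⟨fun _ x => x, ⟨contDiff_snd, fun y x hx => hx,
      fun _ x => x, contDiff_snd, fun y x hx => hx, fun y x => rfl, fun y x => rfl⟩, ?_⟩
    intro x hx
    have h1 := hu hx
    simp only [id] at h1
    rw [h1]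
    simpa using hε
  | step u u' f e h he hf hu' ih =>
    intro ε hε
    have hc : Continuous (fun z : ℂ × V => e z.1 z.2) := (hF e he).sm.continuous
    have huc : ContinuousOn u L := rch_cont hF h
    have hK : IsCompact ((fun x => (f x, u x)) '' L) := hL.image_of_continuousOn (hf.prodMk huc)
    obtain ⟨δ, hδ, hun⟩ := unif_near _ hc _ hK ε hε
    obtain ⟨G, hG, hGu⟩ := ih δ hδ
    obtain ⟨g, hg, hgf⟩ := hS V L f δ hL hf hδ
    obtain ⟨H, hHs, hHp, hHG, hGH⟩ := hG.inv
    refine ⟨fun y x => e (g y) (G y x), ⟨?_, ?_, fun y x => H y (e (-g y) x), ?_, ?_, ?_, ?_⟩, ?_⟩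
    · exact (hF e he).sm.comp ((hg.comp contDiff_fst).prodMk hG.sm)
    · intro y x hx
      exact (hF e he).pres _ _ (hG.pres y x hx)
    · have h1 : ContDiff ℝ ∞ (fun z : V × V => e (-g z.1) z.2) :=
        (hF e he).sm.comp ((hg.neg.comp contDiff_fst).prodMk contDiff_snd)
      exact hHs.comp (contDiff_fst.prodMk h1)
    · intro y x hx
      exact hHp y _ ((hF e he).pres _ _ hx)
    · intro y x
      show H y (e (-g y) (e (g y) (G y x))) = x
      rw [(hF e he).inv, hHG]
    · intro y x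
      show e (g y) (G y (H y (e (-g y) x))) = x
      rw [hGH]
      have h1 := (hF e he).inv (-g y) x
      rwa [neg_neg] at h1
    · intro x hx
      have h1 := hu' hx
      simp only at h1
      rw [h1]
      refine hun (f x, u x) ⟨x, hx, rfl⟩ (g x, G x x) ?_
      rw [Prod.dist_eq]
      refine max_lt ?_ (hGu x hx)
      rw [dist_eq_norm]
      exact hgf x hx

theorem hAPX : StSMA → StAPX := by
  intro hS V _ _ _ Y 𝓕 L U u hF hL hR hM hU
  have huc : ContinuousOn u L := rch_cont hF hR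
  have hK : IsCompact (u '' L) := hL.image_of_continuousOn huc
  obtain ⟨δ, hδ, hsub⟩ := hK.exists_thickening_subset_open hU (image_subset_iff.2 hM)
  obtain ⟨G, hG, hGu⟩ := key hS hF hL hR δ hδ
  refine ⟨G, hG, fun x hx => hsub ?_⟩
  rw [mem_thickening_iff]
  exact ⟨u x, ⟨x, hx, rfl⟩, hGu x hx⟩

end Pool.Agent.Helper58.FX
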