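import Pool.Agent.Helper84.FX.StX

set_option autoImplicit false

namespace Pool.Agent.Helper58.FX

open Pool.Agent.Helper84.FX Pool.Agent.Helper72.FX

section maps

variable {A B : Type} [CommRing A] [Algebra ℂ A] [CommRing B] [Algebra ℂ B]

private theorem vec3 (f : A →ₐ[ℂ] B) (a b t : A) :
    (fun i => f ((![a, b, t] : Fin 3 → A) i)) = ![f a, f b, f t] := by
  funext i
  fin_cases i <;> rfl

private theorem map3 (f : A →ₐ[ℂ] B) (a b t : A) (p : MvPolynomial (Fin 3) ℂ) :
    f (MvPolynomial.aeval ![a, b, t] p) = MvPolynomial.aeval ![f a, f b, f t] p := by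
  have h := MvPolynomial.comp_aeval (R := ℂ) (![a, b, t] : Fin 3 → A) f
  have h2 := congrArg (fun g : MvPolynomial (Fin 3) ℂ →ₐ[ℂ] B => g p) h
  simp only [AlgHom.comp_apply] at h2
  rw [h2, vec3]

private theorem map_kx (f : A →ₐ[ℂ] B) (a b t : A) : f (kx a b t) = kx (f a) (f b) (f t) :=
  map3 f a b t _

private theorem map_ky (f : A →ₐ[ℂ] B) (a b t : A) : f (ky a b t) = ky (f a) (f b) (f t) :=
  map3 f a b t _

private theorem map_kz (f : A →ₐ[ℂ] B) (a b t : A) : f (kz a b t) = kz (f a) (f b) (f t) :=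
  map3 f a b t _

private theorem map_kappa (f : A →ₐ[ℂ] B) (a b t : A) :
    f (kappa a b t) = kappa (f a) (f b) (f t) := by
  unfold kappa
  rw [map_sub, map_mul, map_mul, map_pow, map_kx, map_ky, map_kz]

private theorem map_nu (f : A →ₐ[ℂ] B) (a b t : A) : f (nu a b t) = nu (f a) (f b) (f t) := by
  unfold nu
  rw [map_sub, map_add, map_mul, map_mul, map_pow, map_pow, map_ofNat]

private theorem map_E1 (f : A →ₐ[ℂ] B) (a b t r n s m : A) :
    f (E1 a b t r n s m) = E1 (f a) (f b) (f t) (f r) (f n) (f s) (f m) := by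
  unfold E1
  rw [map_sub, map_sub, map_mul, map_mul, map_nu]

private theorem map_E2 (f : A →ₐ[ℂ] B) (a b t r n s m x y z : A) :
    f (E2 a b t r n s m x y z) =
      E2 (f a) (f b) (f t) (f r) (f n) (f s) (f m) (f x) (f y) (f z) := by
  unfold E2
  simp only [map_sub, map_add, map_mul, map_neg, map_pow, map_kx, map_ky, map_kz, map_kappa,
    map_ofNat]

private theorem map_FF (f : A →ₐ[ℂ] B) (z : Fin 12 → A) : f (FF z) = FF (fun i => f (z i)) := by
  unfold FF
  simp only [map_sub, map_add, map_mul, map_E1, map_E2]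

end maps

theorem hEV : StEV := by
  intro z
  have h := map_FF (MvPolynomial.aeval z : MvPolynomial (Fin 12) ℂ →ₐ[ℂ] ℂ)
    (MvPolynomial.X : Fin 12 → MvPolynomial (Fin 12) ℂ)
  have h2 : (fun i => (MvPolynomial.aeval z : MvPolynomial (Fin 12) ℂ →ₐ[ℂ] ℂ)
      (MvPolynomial.X i)) = z := by
    funext i
    exact MvPolynomial.aeval_X z i
  rw [h2] at h
  have h3 : MvPolynomial.eval z FP = (MvPolynomial.aeval z : MvPolynomial (Fin 12) ℂ →ₐ[ℂ] ℂ) FP := by
    rw [MvPolynomial.aeval_eq_eval]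
  rw [h3]
  exact h

end Pool.Agent.Helper58.FX
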